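import Pool.Graph.R_seed8.Results.MP_5090e2_pr.ProfileLimits

/-!
# Limits of distance profiles: reversible chains, worst-case distances and all initial states

The library (`ProfileLimits`) shows that every subsequential weak limit of the random distance functions of
finite-state continuous-time Markov chains is the random distance function of a Markov process with a stationary
distribution. Here the process is shown to be a limit of the chains in a much stronger sense: along an ultrafilter
finer than the subsequence, every sequence of initial states has a limit state, every state is such a limit, and the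
distances to stationarity and the distances between the laws from two initial states converge at all times; the
worst-case distance functions converge as well; and if the chains are reversible then the process is reversible.
-/

set_option autoImplicit false

open Filter MeasureTheory Set ProbabilityTheory
open scoped ENNReal NNReal Topology BoundedContinuousFunction

namespace Pool.Agent.Results.MP_5090e2_pr.ReversibleLimits

open Pool.Agent.Results.MP_5090e2_pr.ProfileLimits

/-- The transition function `T` is reversible with respect to `π`: started from `π`, the process is in `A` at time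
`0` and in `B` at time `t` with the same probability as in `B` at time `0` and in `A` at time `t`. -/
def Reversible {E : Type} [MeasurableSpace E] (T : TransitionFunction E) (π : Measure E) : Prop :=
  ∀ t, ∀ A B : Set E, MeasurableSet A → MeasurableSet B →
    ∫⁻ x in A, T.ker t x B ∂π = ∫⁻ x in B, T.ker t x A ∂π

/-- The worst-case distance function `sup_x d_x(t)`. -/
noncomputable def worst {E : Type} [MeasurableSpace E] (T : TransitionFunction E) (π : Measure E)
    (t : ℝ≥0) : ℝ :=
  ⨆ x : E, distFun T π x t

section

variable {U : Ultrafilter ℕ} {S : ℕ → Type} [∀ n, Fintype (S n)] [∀ n, MeasurableSpace (S n)]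
  [∀ n, DiscreteMeasurableSpace (S n)] [∀ n, Nonempty (S n)]
  (hU : (U : Filter ℕ) ≤ atTop) (T : ∀ n, TransitionFunction (S n))

/-- The integral of the transition probability into an internal set over an internal set. -/
theorem setLIntegral_intl (π : ∀ n, Measure (S n)) [∀ n, IsProbabilityMeasure (π n)] (t : ℝ≥0)
    (A B : ∀ n, Set (S n)) :
    ∫⁻ x in intl U A, uker hU T t x (intl U B) ∂(loeb hU π) =
      ulim U (fun n => ∫⁻ y in A n, (T n).ker t y (B n) ∂(π n)) := by
  classical
  have hA : ∀ n, MeasurableSet (A n) := fun n => MeasurableSet.of_discrete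
  rw [← lintegral_indicator (measurableSet_intl hA)]
  have e : ∀ x : Ult U S, (intl U A).indicator (fun x => uker hU T t x (intl U B)) x =
      lift U (fun n => (A n).indicator (fun y => (T n).ker t y (B n))) x := by
    intro x
    symm
    apply ulim_eq
    by_cases h : x ∈ intl U A
    · rw [indicator_of_mem h, uker_intl]
      refine (tendsto_ulim _).congr' ?_
      exact (mem_intl.mp h).mono fun n hn =>
        (indicator_of_mem hn (fun y => (T n).ker t y (B n))).symm
    · rw [indicator_of_notMem h]
      have h2 : x ∈ intl U (fun n => (A n)ᶜ) := by rw [← intl_compl]; exact h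
      apply tendsto_const_nhds.congr'
      exact (mem_intl.mp h2).mono fun n hn =>
        (indicator_of_notMem hn (fun y => (T n).ker t y (B n))).symm
  simp_rw [e]
  rw [lintegral_lift hU π _ (fun n => measurable_of_finite _) 1]
  · congr 1
    ext n
    rw [lintegral_indicator (hA n)]
  · intro n y
    have := (T n).markov t
    refine (indicator_le_self' (fun _ _ => zero_le) y).trans ?_
    simpa using prob_le_one

theorem ureversible (π : ∀ n, Measure (S n)) [∀ n, IsProbabilityMeasure (π n)]
    (h : ∀ᶠ n in (U : Filter ℕ), Reversible (T n) (π n)) :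
    Reversible (uT hU T) (loeb hU π) := by
  intro t
  show ∀ A B : Set (Ult U S), MeasurableSet A → MeasurableSet B →
    ∫⁻ x in A, uker hU T t x B ∂(loeb hU π) = ∫⁻ x in B, uker hU T t x A ∂(loeb hU π)
  have hint : ∀ A B : ∀ n, Set (S n),
      ∫⁻ x in intl U A, uker hU T t x (intl U B) ∂(loeb hU π) =
        ∫⁻ x in intl U B, uker hU T t x (intl U A) ∂(loeb hU π) := by
    intro A B
    rw [setLIntegral_intl, setLIntegral_intl]
    apply ulim_congr
    exact h.mono fun n hn => hn t (A n) (B n) MeasurableSet.of_discrete MeasurableSet.of_discrete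
  -- the two measures in the second variable
  have meas : ∀ A : Set (Ult U S), MeasurableSet A → Measurable fun x => uker hU T t x A :=
    fun A hA => Kernel.measurable_coe _ hA
  have key1 : ∀ (A : ∀ n, Set (S n)) (B : Set (Ult U S)), MeasurableSet B →
      ∫⁻ x in intl U A, uker hU T t x B ∂(loeb hU π) =
        ∫⁻ x in B, uker hU T t x (intl U A) ∂(loeb hU π) := by
    intro A B hB
    have hA : MeasurableSet (intl U A) := measurableSet_intl fun n => MeasurableSet.of_discrete
    have e1 : ((loeb hU π).restrict (intl U A)).bind (uker hU T t) =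
        (loeb hU π).withDensity (fun x => uker hU T t x (intl U A)) := by
      apply ext_intl
      intro D hD
      rw [Measure.bind_apply (measurableSet_intl hD) (uker hU T t).aemeasurable,
        withDensity_apply _ (measurableSet_intl hD)]
      exact hint A D
    have e2 := congrArg (fun μ : Measure (Ult U S) => μ B) e1
    rwa [Measure.bind_apply hB (uker hU T t).aemeasurable, withDensity_apply _ hB] at e2
  intro A B hA hB
  have e1 : (loeb hU π).withDensity (fun x => uker hU T t x B) =
      ((loeb hU π).restrict B).bind (uker hU T t) := by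
    have : IsFiniteMeasure ((loeb hU π).withDensity (fun x => uker hU T t x B)) := by
      apply isFiniteMeasure_withDensity
      refine ne_top_of_le_ne_top ENNReal.one_ne_top ?_
      calc ∫⁻ x, uker hU T t x B ∂(loeb hU π) ≤ ∫⁻ _, 1 ∂(loeb hU π) :=
            lintegral_mono fun x => prob_le_one
        _ = 1 := by simp
    apply ext_intl
    intro D hD
    rw [Measure.bind_apply (measurableSet_intl hD) (uker hU T t).aemeasurable,
      withDensity_apply _ (measurableSet_intl hD)]
    exact key1 D B hB
  have e2 := congrArg (fun μ : Measure (Ult U S) => μ A) e1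
  rwa [Measure.bind_apply hA (uker hU T t).aemeasurable, withDensity_apply _ hA] at e2

theorem tendsto_pair (x y : Ult U S) (t : ℝ≥0) :
    Tendsto (fun n => tv ((T n).ker t (x n)) ((T n).ker t (y n))) (U : Filter ℕ)
      (𝓝 (tv ((uT hU T).ker t x) ((uT hU T).ker t y))) := by
  have inst : ∀ (x : Ult U S) (n : ℕ), IsProbabilityMeasure ((T n).ker t (x n)) :=
    fun x n => ((T n).markov t).isProbabilityMeasure (x n)
  have i1 := inst x
  have i2 := inst y
  exact tendsto_tv hU (fun n => (T n).ker t (x n)) (fun n => (T n).ker t (y n))

theorem tendsto_worst (π : ∀ n, Measure (S n)) [∀ n, IsProbabilityMeasure (π n)] (t : ℝ≥0) :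
    Tendsto (fun n => worst (T n) (π n) t) (U : Filter ℕ)
      (𝓝 (worst (uT hU T) (loeb hU π) t)) := by
  have hmax : ∀ n, ∃ x : S n, distFun (T n) (π n) x t = worst (T n) (π n) t := fun n =>
    exists_eq_ciSup_of_finite
  choose x hx using hmax
  have hle : ∀ n (y : S n), distFun (T n) (π n) y t ≤ distFun (T n) (π n) (x n) t := fun n y => by
    rw [hx n]
    exact le_ciSup (f := fun y => distFun (T n) (π n) y t) (Set.finite_range _).bddAbove y
  have h1 := tendsto_distFun hU T π (x : Ult U S) t
  have h2 : worst (uT hU T) (loeb hU π) t = distFun (uT hU T) (loeb hU π) (x : Ult U S) t := by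
    have : Nonempty (Ult U S) := ⟨x⟩
    have hub : ∀ y : Ult U S, distFun (uT hU T) (loeb hU π) y t ≤
        distFun (uT hU T) (loeb hU π) (x : Ult U S) t := fun y =>
      le_of_tendsto_of_tendsto' (tendsto_distFun hU T π y t) h1 fun n => hle n (y n)
    apply le_antisymm (ciSup_le hub)
    exact le_ciSup (f := fun y => distFun (uT hU T) (loeb hU π) y t)
      ⟨_, by rintro _ ⟨y, rfl⟩; exact hub y⟩ (x : Ult U S)
  rw [h2]
  exact h1.congr fun n => hx n

end

/-- Let `C n` be finite-state continuous-time Markov chains with stationary distributions `π n`, and let `Flim` be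
the weak limit of their random distance functions along a subsequence `φ`. There are a continuous-time Markov process
`X` on a measurable space `E`, a stationary distribution `ν` of it, an ultrafilter `U` on `ℕ` finer than `atTop` and
a map `st` of the set of all sequences of states `y k ∈ S (φ k)` onto `E` such that:

1. `Flim` has the distribution of the random distance function of `X` (the question);
2. if the chains `C (φ k)` are reversible for all large `k`, then `X` is reversible with respect to `ν`;
3. the distances to stationarity from the states `y k` converge along `U` to the one from `st y`, at all times, and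
so do the distances between the laws from the states `y k` and `y' k`;
4. the worst-case distance functions converge along `U` to the one of `X`, at all times. -/
theorem result (S : ℕ → Type) [∀ n, Finite (S n)] [∀ n, MeasurableSpace (S n)]
    [∀ n, DiscreteMeasurableSpace (S n)] (C : ∀ n, TransitionFunction (S n))
    (hC : ∀ n x, Tendsto (fun t => (C n).ker t x {x}) (𝓝[>] 0) (𝓝 1))
    (π : ∀ n, Measure (S n)) [∀ n, IsProbabilityMeasure (π n)]
    (hπ : ∀ n t, (π n).bind ((C n).ker t) = π n)
    (Ω : Type) [MeasurableSpace Ω] (P : Measure Ω) [IsProbabilityMeasure P] (Flim : Ω → Profile)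
    (φ : ℕ → ℕ) (_hφ : StrictMono φ)
    (h : TendstoInDistribution (fun k => profile (C (φ k)) (π (φ k))) atTop Flim
      (fun k => π (φ k)) P) :
    ∃ (E : Type) (_ : MeasurableSpace E) (X : MarkovProcess E) (ν : Measure E)
      (U : Ultrafilter ℕ) (st : (∀ k, S (φ k)) → E),
      (IsProbabilityMeasure ν ∧ (∀ t, ν.bind (X.ker t) = ν) ∧
        Measurable (profile X.toTransitionFunction ν) ∧
        IdentDistrib Flim (profile X.toTransitionFunction ν) P ν) ∧
      ((∀ᶠ k in atTop, Reversible (C (φ k)) (π (φ k))) →
        Reversible X.toTransitionFunction ν) ∧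
      ((U : Filter ℕ) ≤ atTop ∧ Function.Surjective st ∧
        (∀ (y : ∀ k, S (φ k)) (t : ℝ≥0),
          Tendsto (fun k => distFun (C (φ k)) (π (φ k)) (y k) t) U
            (𝓝 (distFun X.toTransitionFunction ν (st y) t))) ∧
        ∀ (y y' : ∀ k, S (φ k)) (t : ℝ≥0),
          Tendsto (fun k => tv ((C (φ k)).ker t (y k)) ((C (φ k)).ker t (y' k))) U
            (𝓝 (tv (X.ker t (st y)) (X.ker t (st y'))))) ∧
      ∀ t, Tendsto (fun k => worst (C (φ k)) (π (φ k)) t) U
        (𝓝 (worst X.toTransitionFunction ν t)) := by
  classical
  have fin : ∀ k, Fintype (S (φ k)) := fun k => Fintype.ofFinite _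
  have hne : ∀ k, Nonempty (S (φ k)) := fun k => nonempty_of_isProbabilityMeasure (π (φ k))
  let U : Ultrafilter ℕ := Ultrafilter.of atTop
  have hU : (U : Filter ℕ) ≤ atTop := Ultrafilter.of_le _
  have hδ : ∀ k, ∃ δ : ℝ≥0, 0 < δ ∧ Fine (C (φ k)) δ (((k : ℝ≥0∞) + 1)⁻¹) := by
    intro k
    apply exists_fine (C (φ k)) (hC (φ k))
    rw [ENNReal.inv_pos]
    exact ENNReal.add_ne_top.mpr ⟨ENNReal.natCast_ne_top k, ENNReal.one_ne_top⟩
  choose δ hδ0 hδ1 using hδ
  have hm := measurable_profile hU (fun k => C (φ k)) (fun k => π (φ k)) (fun k => hπ (φ k))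
  refine ⟨Ult U (fun k => S (φ k)), inferInstance, uproc hU (fun k => C (φ k)) δ hδ0 hδ1,
    loeb hU (fun k => π (φ k)), U, fun y => y, ⟨inferInstance,
    ustationary hU (fun k => C (φ k)) (fun k => π (φ k)) (fun k => hπ (φ k)), hm,
    ⟨h.aemeasurable_limit, hm.aemeasurable, ?_⟩⟩, fun hr => ?_, ⟨hU, fun y => ⟨y, rfl⟩,
      fun y t => ?_, fun y y' t => ?_⟩, fun t => ?_⟩
  · symm
    have hΛ : IsProbabilityMeasure (P.map Flim) :=
      Measure.isProbabilityMeasure_map h.aemeasurable_limit
    apply law_eq hU (fun k => C (φ k)) (fun k => π (φ k)) (fun k => hπ (φ k))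
    intro Φ
    have h1 := ProbabilityMeasure.tendsto_iff_forall_lintegral_tendsto.mp h.tendsto Φ
    refine Tendsto.mono_left ?_ hU
    refine h1.congr fun k => ?_
    show ∫⁻ f, Φ f ∂((π (φ k)).map (profile (C (φ k)) (π (φ k)))) = _
    rw [lintegral_map (by fun_prop) (measurable_of_finite _)]
  · exact ureversible hU (fun k => C (φ k)) (fun k => π (φ k)) (hU hr)
  · exact tendsto_distFun hU (fun k => C (φ k)) (fun k => π (φ k)) y t
  · exact tendsto_pair hU (fun k => C (φ k)) y y' t
  · exact tendsto_worst hU (fun k => C (φ k)) (fun k => π (φ k)) t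

end Pool.Agent.Results.MP_5090e2_pr.ReversibleLimits
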